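import Pool.Agent.H91.SignPow

set_option autoImplicit false

open H91.SignPow in
theorem Pool.Agent.Results.MP_035d7c_an.Holds.result :
    ∀ p q : ℝ, 0 < p → 0 < q →
    (∀ L, (H91.SignDim.E (H91.SignPow.a p q) L).Nonempty) → ∀ m : MetricSpace (ℕ → ℤˣ),
      (∀ x y, x ≠ y → m.dist x y = (1 / 2) ^ (PiNat.firstDiff x y + 1)) →
      ∀ L, @dimH _ m.toEMetricSpace (H91.SignDim.E (H91.SignPow.a p q) L) = 1 :=
  main
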